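import Mathlib

namespace Pool.Agent.Results.MP_02b0aa_co.LogarithmicUpperBound

open Finset

/-- `X` is a subcolour class of `G`: no induced path on three vertices inside `X`, that is,
`G[X]` is a disjoint union of complete graphs. -/
def IsSubcolourClass {V : Type*} (G : SimpleGraph V) (X : Set V) : Prop :=
  ∀ a ∈ X, ∀ b ∈ X, ∀ c ∈ X, a ≠ c → G.Adj a b → G.Adj b c → G.Adj a c

/-- The subchromatic number: the least `k` such that the vertices can be coloured with `k`
colours so that every colour class is a subcolour class. -/
noncomputable def subchromaticNumber {V : Type*} (G : SimpleGraph V) : ℕ :=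
  sInf {k | ∃ c : V → Fin k, ∀ i, IsSubcolourClass G {v | c v = i}}

/-- `S(n)`: the largest subchromatic number of a graph on `n` vertices. -/
noncomputable def maxSubchromatic (n : ℕ) : ℕ :=
  sSup {m | ∃ G : SimpleGraph (Fin n), m = subchromaticNumber G}

section ramsey

variable {V : Type*} [DecidableEq V] (G : SimpleGraph V) [DecidableRel G.Adj]

theorem ramsey_card (n : ℕ) : ∀ (a b : ℕ), a + b = n → ∀ (W : Finset V),
    (∀ X ⊆ W, (∀ x ∈ X, ∀ y ∈ X, x ≠ y → G.Adj x y) → X.card ≤ a) →
    (∀ X ⊆ W, (∀ x ∈ X, ∀ y ∈ X, ¬ G.Adj x y) → X.card ≤ b) →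
    W.card + 1 ≤ (a + b).choose a := by
  induction n with
  | zero =>
    intro a b hab W h1 h2
    have ha : a = 0 := by omega
    have hb : b = 0 := by omega
    subst ha; subst hb
    have : W = ∅ := by
      rw [Finset.eq_empty_iff_forall_notMem]
      intro v hv
      have := h1 {v} (by simpa using hv) (by
        intro x hx y hy hne
        simp only [mem_singleton] at hx hy
        exact absurd (hx.trans hy.symm) hne)
      simp at this
    simp [this]
  | succ n ih =>
    intro a b hab W h1 h2
    rcases Nat.eq_zero_or_pos a with ha | ha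
    · subst ha
      have : W = ∅ := by
        rw [Finset.eq_empty_iff_forall_notMem]
        intro v hv
        have := h1 {v} (by simpa using hv) (by
          intro x hx y hy hne
          simp only [mem_singleton] at hx hy
          exact absurd (hx.trans hy.symm) hne)
        simp at this
      simp [this]
    rcases Nat.eq_zero_or_pos b with hb | hb
    · subst hb
      have : W = ∅ := by
        rw [Finset.eq_empty_iff_forall_notMem]
        intro v hv
        have := h2 {v} (by simpa using hv) (by
          intro x hx y hy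
          simp only [mem_singleton] at hx hy
          subst hx; subst hy
          exact G.loopless.irrefl _)
        simp at this
      simp [this]
    obtain ⟨a, rfl⟩ : ∃ a', a = a' + 1 := ⟨a - 1, by omega⟩
    obtain ⟨b, rfl⟩ : ∃ b', b = b' + 1 := ⟨b - 1, by omega⟩
    rcases W.eq_empty_or_nonempty with hW | ⟨v, hv⟩
    · subst hW
      simp only [card_empty, zero_add]
      exact Nat.choose_pos (by omega)
    have hA := ih a (b + 1) (by omega) ((W.erase v).filter (fun w => G.Adj v w)) (by
        intro X hX hc
        have hvX : v ∉ X := by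
          intro hvX
          have := hX hvX
          simp at this
        have := h1 (insert v X) (by
          intro w hw
          rw [mem_insert] at hw
          rcases hw with rfl | hw
          · exact hv
          · have := hX hw
            simp only [mem_filter, mem_erase] at this
            exact this.1.2) (by
          intro x hx y hy hne
          rw [mem_insert] at hx hy
          rcases hx with rfl | hx <;> rcases hy with rfl | hy
          · exact absurd rfl hne
          · have := hX hy
            simp only [mem_filter, mem_erase] at this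
            exact this.2
          · have := hX hx
            simp only [mem_filter, mem_erase] at this
            exact this.2.symm
          · exact hc x hx y hy hne)
        rw [card_insert_of_notMem hvX] at this
        omega) (by
        intro X hX hc
        exact h2 X (hX.trans ((filter_subset _ _).trans (erase_subset _ _))) hc)
    have hB := ih (a + 1) b (by omega) ((W.erase v).filter (fun w => ¬ G.Adj v w)) (by
        intro X hX hc
        exact h1 X (hX.trans ((filter_subset _ _).trans (erase_subset _ _))) hc) (by
        intro X hX hc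
        have hvX : v ∉ X := by
          intro hvX
          have := hX hvX
          simp at this
        have := h2 (insert v X) (by
          intro w hw
          rw [mem_insert] at hw
          rcases hw with rfl | hw
          · exact hv
          · have := hX hw
            simp only [mem_filter, mem_erase] at this
            exact this.1.2) (by
          intro x hx y hy
          rw [mem_insert] at hx hy
          rcases hx with rfl | hx <;> rcases hy with rfl | hy
          · exact G.loopless.irrefl _
          · have := hX hy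
            simp only [mem_filter, mem_erase] at this
            exact this.2
          · have := hX hx
            simp only [mem_filter, mem_erase] at this
            exact fun h => this.2 h.symm
          · exact hc x hx y hy)
        rw [card_insert_of_notMem hvX] at this
        omega)
    have hsplit : (W.erase v).card = ((W.erase v).filter (fun w => G.Adj v w)).card
        + ((W.erase v).filter (fun w => ¬ G.Adj v w)).card :=
      (card_filter_add_card_filter_not (s := W.erase v) (fun w => G.Adj v w)).symm
    have hcard : W.card = (W.erase v).card + 1 := (card_erase_add_one hv).symm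
    have hch : (a + 1 + (b + 1)).choose (a + 1) =
        (a + (b + 1)).choose a + (a + 1 + b).choose (a + 1) := by
      have e1 : a + 1 + (b + 1) = (a + b + 1) + 1 := by omega
      have e2 : a + (b + 1) = a + b + 1 := by omega
      have e3 : a + 1 + b = a + b + 1 := by omega
      rw [e1, e2, e3, Nat.choose_succ_succ]
    rw [hch]
    omega

end ramsey

theorem pow_compare (j t : ℕ) (h : 19 * j ≤ 8 * t) : ((27 : ℝ) / 8) ^ j ≤ (361 / 216) ^ t := by
  have h1 : (((27 : ℝ) / 8) ^ j) ^ 19 ≤ ((361 / 216) ^ t) ^ 19 := by
    calc (((27 : ℝ) / 8) ^ j) ^ 19 = (27 / 8) ^ (19 * j) := by rw [← pow_mul, mul_comm]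
      _ ≤ (27 / 8) ^ (8 * t) := pow_le_pow_right₀ (by norm_num) h
      _ = ((27 / 8) ^ 8) ^ t := by rw [pow_mul]
      _ ≤ ((361 / 216) ^ 19) ^ t := by
          apply pow_le_pow_left₀ (by positivity)
          norm_num
      _ = ((361 / 216) ^ t) ^ 19 := by rw [← pow_mul, ← pow_mul, mul_comm]
  exact le_of_pow_le_pow_left₀ (by norm_num) (by positivity) h1

theorem choose_sq_le (s j : ℕ) (h : 27 * j ≤ 8 * s) :
    ((s.choose j : ℕ) : ℝ) ^ 2 ≤ (27 / 8) ^ s := by
  have hjs : j ≤ s := by omega
  obtain ⟨t, rfl⟩ : ∃ t, s = j + t := ⟨s - j, by omega⟩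
  have h1 : ((8 : ℝ) / 27) ^ j * (19 / 27) ^ t * ((j + t).choose j : ℕ) ≤ 1 := by
    have e := add_pow ((8 : ℝ) / 27) (19 / 27) (j + t)
    have e1 : ((8 : ℝ) / 27 + 19 / 27) ^ (j + t) = 1 := by norm_num
    rw [e1] at e
    rw [e]
    have := Finset.single_le_sum (s := range (j + t + 1))
      (f := fun m => ((8 : ℝ) / 27) ^ m * (19 / 27) ^ (j + t - m) * ((j + t).choose m : ℕ))
      (by intro i _; positivity) (show j ∈ range (j + t + 1) by simp)
    simpa using this
  have h2 : (((j + t).choose j : ℕ) : ℝ) ≤ (27 / 8) ^ j * (27 / 19) ^ t := by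
    have e : ((8 : ℝ) / 27) ^ j * (27 / 8) ^ j = 1 := by
      rw [← mul_pow]; norm_num
    have e' : ((19 : ℝ) / 27) ^ t * (27 / 19) ^ t = 1 := by
      rw [← mul_pow]; norm_num
    calc (((j + t).choose j : ℕ) : ℝ)
        = (((8 : ℝ) / 27) ^ j * (27 / 8) ^ j) * (((19 : ℝ) / 27) ^ t * (27 / 19) ^ t) *
          ((j + t).choose j : ℕ) := by rw [e, e']; ring
      _ = (((8 : ℝ) / 27) ^ j * (19 / 27) ^ t * ((j + t).choose j : ℕ)) *
          ((27 / 8) ^ j * (27 / 19) ^ t) := by ring
      _ ≤ 1 * ((27 / 8) ^ j * (27 / 19) ^ t) := by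
          apply mul_le_mul_of_nonneg_right h1 (by positivity)
      _ = _ := one_mul _
  have h3 := pow_compare j t (by omega)
  calc (((j + t).choose j : ℕ) : ℝ) ^ 2 ≤ ((27 / 8) ^ j * (27 / 19) ^ t) ^ 2 :=
        pow_le_pow_left₀ (by positivity) h2 2
    _ = (27 / 8) ^ j * (27 / 8) ^ j * ((27 / 19) ^ 2) ^ t := by
        rw [mul_pow, ← pow_mul, ← pow_mul, ← pow_mul, mul_comm t 2, mul_comm j 2, pow_mul _ 2 j,
          pow_mul _ 2 t, ← mul_pow]
        norm_num
    _ ≤ (27 / 8) ^ j * (361 / 216) ^ t * ((27 / 19) ^ 2) ^ t := by
        gcongr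
    _ = (27 / 8) ^ j * (27 / 8) ^ t := by
        rw [mul_assoc, ← mul_pow]; norm_num
    _ = (27 / 8) ^ (j + t) := by rw [pow_add]

section main

variable {V : Type*} [DecidableEq V] (G : SimpleGraph V) [DecidableRel G.Adj]

/-- The inductive step, with the bound `B` for the previous value. -/
theorem card_step (s : ℕ) (B : ℝ)
    (ih : ∀ W : Finset V, (∀ X ⊆ W, IsSubcolourClass G (X : Set V) → X.card ≤ s) →
      (W.card : ℝ) ≤ B)
    (W : Finset V) (hW : ∀ X ⊆ W, IsSubcolourClass G (X : Set V) → X.card ≤ s + 1) :
    (W.card : ℝ) ≤ (s + 1) + (s + 1) * (27 / 8) ^ (s + 1) + 27 / 8 * B := by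
  classical
  have hB0 : 0 ≤ B := by
    have := ih ∅ (by
      intro X hX _
      have : X = ∅ := subset_empty.mp hX
      simp [this])
    simpa using this
  -- a maximum clique
  obtain ⟨K, hK, hKmax⟩ := Finset.exists_max_image
    (W.powerset.filter (fun X => ∀ x ∈ X, ∀ y ∈ X, x ≠ y → G.Adj x y)) card
    ⟨∅, by simp⟩
  simp only [mem_filter, mem_powerset] at hK hKmax
  obtain ⟨hKW, hKc⟩ := hK
  have hKs : K.card ≤ s + 1 := by
    apply hW K hKW
    intro a ha b hb c hc hac _ _
    exact hKc a ha c hc hac
  -- non-neighbours
  have hN : ∀ x ∈ W, (((W.filter (fun w => w ≠ x ∧ ¬ G.Adj x w)).card : ℕ) : ℝ) ≤ B := by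
    intro x hx
    apply ih
    intro X hX hXc
    have hxX : x ∉ X := by
      intro h
      have := hX h
      simp at this
    have h1 := hW (insert x X) (by
      intro w hw
      rw [mem_insert] at hw
      rcases hw with rfl | hw
      · exact hx
      · exact filter_subset _ _ (hX hw)) (by
      have hno : ∀ w ∈ X, ¬ G.Adj x w := by
        intro w hw
        have := hX hw
        simp only [mem_filter] at this
        exact this.2.2
      intro a ha b hb c hc hac hab hbc
      simp only [coe_insert, Set.mem_insert_iff, mem_coe] at ha hb hc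
      rcases ha with rfl | ha
      · rcases hb with rfl | hb
        · exact absurd hab (G.loopless.irrefl _)
        · exact absurd hab (hno b hb)
      · rcases hb with rfl | hb
        · exact absurd hab.symm (hno a ha)
        · rcases hc with rfl | hc
          · exact absurd hbc.symm (hno b hb)
          · exact hXc a ha b hb c hc hac hab hbc)
    rw [card_insert_of_notMem hxX] at h1
    omega
  -- the traces
  let J : V → Finset V := fun w => K.filter (fun x => ¬ G.Adj w x)
  let U : Finset V := W \ K
  let m : ℕ := (8 * (s + 1) + 26) / 27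
  have hm1 : 8 * (s + 1) ≤ 27 * m := by omega
  have hm2 : ∀ j, j < m → 27 * j ≤ 8 * (s + 1) := by intro j hj; omega
  have hm3 : m ≤ s + 1 := by omega
  have hm0 : 0 < m := by omega
  -- vertices with many non-neighbours in K
  have hsum : (((∑ w ∈ U, (J w).card : ℕ) : ℕ) : ℝ) ≤ (s + 1) * B := by
    have e : ∑ w ∈ U, (J w).card = ∑ x ∈ K, (U.filter (fun w => ¬ G.Adj w x)).card := by
      simp only [J, card_filter]
      rw [sum_comm]
    rw [e]
    push_cast
    calc ∑ x ∈ K, ((U.filter (fun w => ¬ G.Adj w x)).card : ℝ) ≤ ∑ x ∈ K, B := by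
          apply sum_le_sum
          intro x hx
          refine le_trans ?_ (hN x (hKW hx))
          have : U.filter (fun w => ¬ G.Adj w x) ⊆
              W.filter (fun w => w ≠ x ∧ ¬ G.Adj x w) := by
            intro w hw
            simp only [mem_filter, U, mem_sdiff] at hw ⊢
            refine ⟨hw.1.1, ?_, fun h => hw.2 h.symm⟩
            rintro rfl
            exact hw.1.2 hx
          exact_mod_cast card_le_card this
      _ = K.card * B := by rw [sum_const, nsmul_eq_mul]
      _ ≤ (s + 1) * B := by
          apply mul_le_mul_of_nonneg_right _ hB0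
          exact_mod_cast hKs
  have hbig : (((U.filter (fun w => m ≤ (J w).card)).card : ℕ) : ℝ) ≤ 27 / 8 * B := by
    have h1 : (U.filter (fun w => m ≤ (J w).card)).card * m ≤ ∑ w ∈ U, (J w).card := by
      calc (U.filter (fun w => m ≤ (J w).card)).card * m
          = ∑ w ∈ U.filter (fun w => m ≤ (J w).card), m := by simp
        _ ≤ ∑ w ∈ U.filter (fun w => m ≤ (J w).card), (J w).card := by
            apply sum_le_sum
            intro w hw
            exact (mem_filter.mp hw).2
        _ ≤ ∑ w ∈ U, (J w).card :=
            sum_le_sum_of_subset (filter_subset _ _)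
    have h2 : (((U.filter (fun w => m ≤ (J w).card)).card : ℕ) : ℝ) * m ≤ (s + 1) * B := by
      refine le_trans ?_ hsum
      exact_mod_cast h1
    have hm1' : 8 * ((s : ℝ) + 1) ≤ 27 * m := by exact_mod_cast hm1
    have hm0' : (0 : ℝ) < m := by exact_mod_cast hm0
    have h3 : ((s : ℝ) + 1) * B ≤ (27 / 8 * B) * m := by nlinarith
    exact le_of_mul_le_mul_right (h2.trans h3) hm0'
  -- vertices with few non-neighbours in K
  have hcls : ∀ j, j < m → ∀ J' ∈ powersetCard j K,
      (U.filter (fun w => J w = J')).card ≤ (s + 1).choose j := by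
    intro j hj J' hJ'
    rw [mem_powersetCard] at hJ'
    obtain ⟨hJK, hJc⟩ := hJ'
    have hadj : ∀ w ∈ U.filter (fun w => J w = J'), ∀ x ∈ K, (x ∈ J' ↔ ¬ G.Adj w x) := by
      intro w hw x hx
      have := (mem_filter.mp hw).2
      rw [← this]
      simp [J, hx]
    have h := ramsey_card G (j + (s + 1 - j)) j (s + 1 - j) rfl
      (U.filter (fun w => J w = J')) (by
        intro C hC hCc
        have hdis : Disjoint C (K \ J') := by
          rw [disjoint_left]
          intro w hw hw'
          have := hC hw
          simp only [mem_filter, U, mem_sdiff] at this hw'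
          exact this.1.2 hw'.1
        have h1 := hKmax (C ∪ (K \ J')) ⟨by
          intro w hw
          rw [mem_union] at hw
          rcases hw with hw | hw
          · have := hC hw
            simp only [mem_filter, U, mem_sdiff] at this
            exact this.1.1
          · exact hKW (mem_sdiff.mp hw).1, by
          intro x hx y hy hne
          rw [mem_union] at hx hy
          rcases hx with hx | hx <;> rcases hy with hy | hy
          · exact hCc x hx y hy hne
          · rw [mem_sdiff] at hy
            by_contra h
            exact hy.2 ((hadj x (hC hx) y hy.1).mpr h)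
          · rw [mem_sdiff] at hx
            by_contra h
            exact hx.2 ((hadj y (hC hy) x hx.1).mpr (fun h' => h h'.symm))
          · exact hKc x (mem_sdiff.mp hx).1 y (mem_sdiff.mp hy).1 hne⟩
        rw [card_union_of_disjoint hdis, card_sdiff_of_subset hJK] at h1
        have := card_le_card hJK
        omega) (by
        intro I hI hIc
        have hdis : Disjoint I J' := by
          rw [disjoint_left]
          intro w hw hw'
          have := hI hw
          simp only [mem_filter, U, mem_sdiff] at this
          exact this.1.2 (hJK hw')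
        have h1 := hW (I ∪ J') (by
          intro w hw
          rw [mem_union] at hw
          rcases hw with hw | hw
          · have := hI hw
            simp only [mem_filter, U, mem_sdiff] at this
            exact this.1.1
          · exact hKW (hJK hw)) (by
          have hIJ : ∀ x ∈ I, ∀ y ∈ J', ¬ G.Adj x y := by
            intro x hx y hy
            exact (hadj x (hI hx) y (hJK hy)).mp hy
          intro a ha b hb c hc hac hab hbc
          rw [mem_coe, mem_union] at ha hb hc
          rcases ha with ha | ha
          · rcases hb with hb | hb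
            · exact absurd hab (hIc a ha b hb)
            · exact absurd hab (hIJ a ha b hb)
          · rcases hb with hb | hb
            · exact absurd hab.symm (hIJ b hb a ha)
            · rcases hc with hc | hc
              · exact absurd hbc.symm (hIJ c hc b hb)
              · exact hKc a (hJK ha) c (hJK hc) hac)
        rw [card_union_of_disjoint hdis] at h1
        omega)
    have e : j + (s + 1 - j) = s + 1 := by omega
    rw [e] at h
    omega
  have hj : ∀ j, j < m → ((((U.filter (fun w => (J w).card = j)).card : ℕ)) : ℝ) ≤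
      (27 / 8) ^ (s + 1) := by
    intro j hj
    have h1 : (U.filter (fun w => (J w).card = j)).card ≤ K.card.choose j * (s + 1).choose j := by
      rw [card_eq_sum_card_fiberwise (f := J) (t := powersetCard j K)]
      · calc ∑ J' ∈ powersetCard j K, ((U.filter (fun w => (J w).card = j)).filter
              (fun w => J w = J')).card
            ≤ ∑ J' ∈ powersetCard j K, (s + 1).choose j := by
              apply sum_le_sum
              intro J' hJ'
              refine le_trans (card_le_card ?_) (hcls j hj J' hJ')
              intro w hw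
              simp only [mem_filter] at hw ⊢
              exact ⟨hw.1.1, hw.2⟩
          _ = _ := by rw [sum_const, card_powersetCard, smul_eq_mul]
      · intro w hw
        rw [mem_coe, mem_powersetCard]
        exact ⟨filter_subset _ _, (mem_filter.mp hw).2⟩
    have h2 : K.card.choose j ≤ (s + 1).choose j := Nat.choose_le_choose j hKs
    have h3 : (U.filter (fun w => (J w).card = j)).card ≤ ((s + 1).choose j) ^ 2 := by
      refine h1.trans ?_
      rw [sq]
      exact Nat.mul_le_mul_right _ h2
    refine le_trans ?_ (choose_sq_le (s + 1) j (hm2 j hj))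
    exact_mod_cast h3
  have hsmall : ((((U.filter (fun w => (J w).card < m)).card : ℕ)) : ℝ) ≤
      m * (27 / 8) ^ (s + 1) := by
    have h1 : (U.filter (fun w => (J w).card < m)).card =
        ∑ j ∈ range m, (U.filter (fun w => (J w).card = j)).card := by
      rw [card_eq_sum_card_fiberwise (f := fun w => (J w).card) (t := range m)]
      · apply sum_congr rfl
        intro j hj
        congr 1
        ext w
        simp only [mem_filter]
        constructor
        · rintro ⟨⟨h1, _⟩, h2⟩; exact ⟨h1, h2⟩
        · rintro ⟨h1, h2⟩; exact ⟨⟨h1, by rw [h2]; exact mem_range.mp hj⟩, h2⟩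
      · intro w hw
        rw [mem_coe, mem_range]
        exact (mem_filter.mp hw).2
    rw [h1]
    push_cast
    calc ∑ j ∈ range m, ((U.filter (fun w => (J w).card = j)).card : ℝ)
        ≤ ∑ j ∈ range m, (27 / 8 : ℝ) ^ (s + 1) := by
          apply sum_le_sum
          intro j hj'
          exact hj j (mem_range.mp hj')
      _ = m * (27 / 8) ^ (s + 1) := by rw [sum_const, card_range, nsmul_eq_mul]
  have hUsplit : U.card = (U.filter (fun w => (J w).card < m)).card +
      (U.filter (fun w => m ≤ (J w).card)).card := by
    have := (card_filter_add_card_filter_not (s := U) (fun w => (J w).card < m)).symm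
    simpa only [not_lt] using this
  have hWsplit : W.card = K.card + U.card := by
    have h1 := card_sdiff_add_card_eq_card hKW
    simp only [U]
    omega
  have hKs' : (K.card : ℝ) ≤ s + 1 := by exact_mod_cast hKs
  have hm3' : (m : ℝ) ≤ s + 1 := by exact_mod_cast hm3
  have hpow : (0 : ℝ) ≤ (27 / 8) ^ (s + 1) := by positivity
  calc (W.card : ℝ) = K.card + (((U.filter (fun w => (J w).card < m)).card : ℕ) +
        ((U.filter (fun w => m ≤ (J w).card)).card : ℕ)) := by
        rw [hWsplit, hUsplit]; push_cast; ring
    _ ≤ (s + 1) + (m * (27 / 8) ^ (s + 1) + 27 / 8 * B) := by linarith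
    _ ≤ (s + 1) + (s + 1) * (27 / 8) ^ (s + 1) + 27 / 8 * B := by
        have := mul_le_mul_of_nonneg_right hm3' hpow
        linarith

theorem card_le (s : ℕ) : ∀ W : Finset V,
    (∀ X ⊆ W, IsSubcolourClass G (X : Set V) → X.card ≤ s) →
      (W.card : ℝ) ≤ ((s : ℝ) + 1) ^ 2 * (27 / 8) ^ s := by
  induction s with
  | zero =>
    intro W hW
    have : W = ∅ := by
      rw [Finset.eq_empty_iff_forall_notMem]
      intro v hv
      have := hW {v} (by simpa using hv) (by
        intro a ha b hb c hc hac _ _
        simp only [coe_singleton, Set.mem_singleton_iff] at ha hc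
        exact absurd (ha.trans hc.symm) hac)
      simp at this
    simp [this]
  | succ s ih =>
    intro W hW
    have h := card_step G s _ ih W hW
    refine h.trans ?_
    have h1 : (1 : ℝ) ≤ (27 / 8) ^ (s + 1) := one_le_pow₀ (by norm_num)
    have hs : (0 : ℝ) ≤ s := Nat.cast_nonneg s
    have e : (27 : ℝ) / 8 * (((s : ℝ) + 1) ^ 2 * (27 / 8) ^ s) =
        ((s : ℝ) + 1) ^ 2 * (27 / 8) ^ (s + 1) := by rw [pow_succ]; ring
    rw [e]
    push_cast
    nlinarith [mul_le_mul_of_nonneg_left h1 (by linarith : (0 : ℝ) ≤ s + 1)]

end main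

section colouring

theorem IsSubcolourClass.mono {V : Type*} {G : SimpleGraph V} {X Y : Set V} (h : X ⊆ Y)
    (hY : IsSubcolourClass G Y) : IsSubcolourClass G X :=
  fun a ha b hb c hc => hY a (h ha) b (h hb) c (h hc)

theorem exists_class (n s : ℕ) (G : SimpleGraph (Fin n)) (W : Finset (Fin n))
    (hW : ((s : ℝ) + 1) ^ 2 * (27 / 8) ^ s < W.card) :
    ∃ X ⊆ W, IsSubcolourClass G (X : Set (Fin n)) ∧ X.card = s + 1 := by
  classical
  by_contra hcon
  push Not at hcon
  have := card_le G s W (by
    intro X hX hXc
    by_contra hlt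
    push Not at hlt
    obtain ⟨Y, hYX, hYc⟩ := exists_subset_card_eq (show s + 1 ≤ X.card by omega)
    exact hcon Y (hYX.trans hX) (hXc.mono (by exact_mod_cast hYX)) hYc)
  linarith

theorem exists_colouring {V : Type*} [DecidableEq V] (G : SimpleGraph V) (s : ℕ) (B : ℝ)
    (hB : ∀ W : Finset V, B < W.card →
      ∃ X ⊆ W, IsSubcolourClass G (X : Set V) ∧ X.card = s + 1) (n : ℕ) :
    ∀ W : Finset V, W.card = n → ∃ (k : ℕ) (c : V → ℕ),
      (k : ℝ) ≤ (W.card : ℝ) / (s + 1) + B ∧ (∀ v ∈ W, c v < k) ∧
      ∀ i, IsSubcolourClass G {v | v ∈ W ∧ c v = i} := by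
  induction n using Nat.strong_induction_on with
  | _ n ih =>
    intro W hn
    rcases le_or_gt (W.card : ℝ) B with hle | hgt
    · refine ⟨W.card, fun v => if h : v ∈ W then (W.equivFin ⟨v, h⟩).val else 0, ?_, ?_, ?_⟩
      · have : (0 : ℝ) ≤ (W.card : ℝ) / (s + 1) := by positivity
        linarith
      · intro v hv
        simp only [hv, dif_pos]
        exact (W.equivFin ⟨v, hv⟩).isLt
      · intro i a ha b hb c hc hac _ _
        simp only [Set.mem_ofPred_eq] at ha hc
        obtain ⟨haW, hai⟩ := ha
        obtain ⟨hcW, hci⟩ := hc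
        simp only [haW, hcW, dif_pos] at hai hci
        have h1 : W.equivFin ⟨a, haW⟩ = W.equivFin ⟨c, hcW⟩ := Fin.ext (hai.trans hci.symm)
        have h2 := W.equivFin.injective h1
        exact absurd (congrArg Subtype.val h2) hac
    · obtain ⟨X, hXW, hXc, hXs⟩ := hB W hgt
      have hcard : (W \ X).card + X.card = W.card := card_sdiff_add_card_eq_card hXW
      obtain ⟨k, c, hk, hck, hcc⟩ := ih (W \ X).card (by omega) (W \ X) rfl
      refine ⟨k + 1, fun v => if v ∈ X then k else c v, ?_, ?_, ?_⟩
      · have h1 : ((W \ X).card : ℝ) + (s + 1) = W.card := by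
          rw [← hcard, hXs]; push_cast; ring
        have h2 : (W.card : ℝ) / (s + 1) = ((W \ X).card : ℝ) / (s + 1) + 1 := by
          rw [← h1]; field_simp
        push_cast
        linarith
      · intro v hv
        by_cases hvX : v ∈ X
        · simp [hvX]
        · simp only [hvX, if_false]
          have := hck v (by simp [hv, hvX])
          omega
      · intro i a ha b hb c' hc' hac hab hbc
        simp only [Set.mem_ofPred_eq] at ha hb hc'
        rcases eq_or_ne i k with rfl | hik
        · have key : ∀ v, (v ∈ W ∧ (if v ∈ X then i else c v) = i) → v ∈ X := by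
            intro v hv
            by_contra hvX
            have h1 := hv.2
            simp only [hvX, if_false] at h1
            have := hck v (by simp [hv.1, hvX])
            omega
          exact hXc a (key a ha) b (key b hb) c' (key c' hc') hac hab hbc
        · have key : ∀ v, (v ∈ W ∧ (if v ∈ X then k else c v) = i) →
              v ∈ W \ X ∧ c v = i := by
            intro v hv
            have hvX : v ∉ X := by
              intro hvX
              have h1 := hv.2
              simp only [hvX, if_true] at h1
              exact hik h1.symm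
            have h1 := hv.2
            simp only [hvX, if_false] at h1
            exact ⟨by simp [hv.1, hvX], h1⟩
          exact hcc i a (key a ha) b (key b hb) c' (key c' hc') hac hab hbc

theorem subchromaticNumber_le (n s : ℕ) (G : SimpleGraph (Fin n)) :
    (subchromaticNumber G : ℝ) ≤ n / (s + 1) + ((s : ℝ) + 1) ^ 2 * (27 / 8) ^ s := by
  classical
  obtain ⟨k, c, hk, hck, hcc⟩ := exists_colouring G s (((s : ℝ) + 1) ^ 2 * (27 / 8) ^ s)
    (fun W hW => exists_class n s G W hW) n univ (by simp)
  have h1 : subchromaticNumber G ≤ k := by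
    apply Nat.sInf_le
    refine ⟨fun v => ⟨c v, hck v (mem_univ v)⟩, fun i => ?_⟩
    refine (hcc i.val).mono ?_
    intro v hv
    simp only [Set.mem_ofPred_eq] at hv ⊢
    exact ⟨mem_univ v, by rw [← hv]⟩
  have h2 : (subchromaticNumber G : ℝ) ≤ k := by exact_mod_cast h1
  simp only [card_univ, Fintype.card_fin] at hk
  exact h2.trans hk

theorem exists_graph (n : ℕ) :
    ∃ G : SimpleGraph (Fin n), maxSubchromatic n = subchromaticNumber G := by
  have hne : {m | ∃ G : SimpleGraph (Fin n), m = subchromaticNumber G}.Nonempty :=
    ⟨_, ⊥, rfl⟩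
  have hfin : {m | ∃ G : SimpleGraph (Fin n), m = subchromaticNumber G}.Finite := by
    have : {m | ∃ G : SimpleGraph (Fin n), m = subchromaticNumber G} =
        Set.range (fun G : SimpleGraph (Fin n) => subchromaticNumber G) := by
      ext m
      simp only [Set.mem_ofPred_eq, Set.mem_range, eq_comm]
    rw [this]
    exact Set.finite_range _
  exact Nat.sSup_mem hne hfin.bddAbove

theorem maxSubchromatic_le (n s : ℕ) :
    (maxSubchromatic n : ℝ) ≤ n / (s + 1) + ((s : ℝ) + 1) ^ 2 * (27 / 8) ^ s := by
  obtain ⟨G, hG⟩ := exists_graph n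
  rw [hG]
  exact subchromaticNumber_le n s G

end colouring

section asymptotic

theorem one_le_log : (1 : ℝ) ≤ Real.log (27 / 8) := by
  rw [Real.le_log_iff_exp_le (by norm_num)]
  have := Real.exp_one_lt_d9
  linarith

theorem upper (ε : ℝ) (hε : 0 < ε) : ∃ N : ℕ, ∀ n : ℕ, N ≤ n →
    (maxSubchromatic n : ℝ) ≤ (1 + ε) * Real.log (27 / 8) * n / Real.log n := by
  set L := Real.log (27 / 8) with hL
  have hL1 : 1 ≤ L := one_le_log
  set δ : ℝ := ε / (2 + ε) with hδ
  have hδ0 : 0 < δ := by positivity
  have hδ1 : δ < 1 := by
    rw [hδ, div_lt_one (by linarith)]; linarith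
  have hδe : 1 - δ = 2 / (2 + ε) := by
    rw [hδ]; field_simp; ring
  refine ⟨⌈Real.exp (max 1 (192 / (ε * δ ^ 4)))⌉₊, fun n hn => ?_⟩
  have hn1 : Real.exp (max 1 (192 / (ε * δ ^ 4))) ≤ n := (Nat.ceil_le.mp hn)
  have hn0 : (0 : ℝ) < n := lt_of_lt_of_le (Real.exp_pos _) hn1
  set x := Real.log n with hx
  have hx1 : max 1 (192 / (ε * δ ^ 4)) ≤ x := by
    rw [hx, Real.le_log_iff_exp_le hn0]; exact hn1
  have hx2 : 1 ≤ x := le_trans (le_max_left _ _) hx1
  have hx3 : 192 / (ε * δ ^ 4) ≤ x := le_trans (le_max_right _ _) hx1
  have hx0 : 0 < x := by linarith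
  set s : ℕ := ⌊(1 - δ) * x / L⌋₊ with hs
  have hs1 : (s : ℝ) ≤ (1 - δ) * x / L := Nat.floor_le (by
    apply div_nonneg (mul_nonneg (by linarith) hx0.le) (by linarith))
  have hs2 : (1 - δ) * x / L < s + 1 := Nat.lt_floor_add_one _
  have hmain := maxSubchromatic_le n s
  have hspos : (0 : ℝ) < s + 1 := by positivity
  -- first term
  have hA : (n : ℝ) / (s + 1) ≤ (1 + ε / 2) * L * n / x := by
    rw [div_le_div_iff₀ hspos hx0]
    have h1 : (1 - δ) * x ≤ (s + 1) * L := by
      rw [div_lt_iff₀ (by linarith)] at hs2
      exact hs2.le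
    have h2 : x ≤ (1 + ε / 2) * ((s + 1) * L) := by
      rw [hδe] at h1
      have h3 : (1 + ε / 2) * (2 / (2 + ε) * x) = x := by field_simp
      have h4 := mul_le_mul_of_nonneg_left h1 (by linarith : 0 ≤ 1 + ε / 2)
      linarith
    nlinarith
  -- second term
  have hsx : (s : ℝ) + 1 ≤ 2 * x := by
    have h1 : (1 - δ) * x / L ≤ x := by
      rw [div_le_iff₀ (by linarith)]
      nlinarith
    linarith
  have hpow : ((27 : ℝ) / 8) ^ s ≤ n * Real.exp (-(δ * x)) := by
    have e1 : ((27 : ℝ) / 8) ^ s = Real.exp (s * L) := by
      rw [hL, Real.exp_nat_mul, Real.exp_log (by norm_num)]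
    have e2 : (n : ℝ) = Real.exp x := (Real.exp_log hn0).symm
    rw [e1]
    conv_rhs => rw [e2]
    rw [← Real.exp_add]
    apply Real.exp_le_exp.mpr
    have h1 : (s : ℝ) * L ≤ (1 - δ) * x := by
      rw [le_div_iff₀ (by linarith)] at hs1
      exact hs1
    linarith
  have hexp : Real.exp (-(δ * x)) ≤ 24 / (δ * x) ^ 4 := by
    have h1 := Real.pow_div_factorial_le_exp (δ * x) (by positivity) 4
    rw [Real.exp_neg]
    have h2 : 0 < (δ * x) ^ 4 / (Nat.factorial 4 : ℕ) := by positivity
    calc (Real.exp (δ * x))⁻¹ ≤ ((δ * x) ^ 4 / (Nat.factorial 4 : ℕ))⁻¹ :=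
          inv_anti₀ h2 h1
      _ = 24 / (δ * x) ^ 4 := by
          rw [inv_div]; norm_num [Nat.factorial]
  have hB : ((s : ℝ) + 1) ^ 2 * (27 / 8) ^ s ≤ (ε / 2) * L * n / x := by
    calc ((s : ℝ) + 1) ^ 2 * (27 / 8) ^ s ≤ (2 * x) ^ 2 * (n * (24 / (δ * x) ^ 4)) := by
          apply mul_le_mul (pow_le_pow_left₀ hspos.le hsx 2) _ (by positivity) (by positivity)
          refine hpow.trans ?_
          exact mul_le_mul_of_nonneg_left hexp hn0.le
      _ = n / x * (96 / (δ ^ 4 * x)) := by field_simp; ring
      _ ≤ n / x * (ε / 2 * L) := by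
          apply mul_le_mul_of_nonneg_left _ (by positivity)
          have h1 : 96 / (δ ^ 4 * x) ≤ ε / 2 := by
            rw [div_le_iff₀ (by positivity)] at hx3 ⊢
            nlinarith
          have h2 : ε / 2 ≤ ε / 2 * L := by nlinarith
          linarith
      _ = (ε / 2) * L * n / x := by ring
  calc (maxSubchromatic n : ℝ) ≤ n / (s + 1) + ((s : ℝ) + 1) ^ 2 * (27 / 8) ^ s := hmain
    _ ≤ (1 + ε / 2) * L * n / x + (ε / 2) * L * n / x := add_le_add hA hB
    _ = (1 + ε) * L * n / x := by ring

end asymptotic

/-- `limsup S(n) log n / n ≤ log (27/8)`: for every `ε > 0` and all large `n`,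
`S(n) ≤ (1+ε) log(27/8) n / log n`. -/
theorem result : ∀ ε : ℝ, 0 < ε → ∃ N : ℕ, ∀ n : ℕ, N ≤ n →
    (maxSubchromatic n : ℝ) ≤ (1 + ε) * Real.log (27 / 8) * n / Real.log n :=
  upper

end Pool.Agent.Results.MP_02b0aa_co.LogarithmicUpperBound
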